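import Pool.Agent.Helper13SM.PMain
import Pool.Agent.Helper13SM.PEx
import Pool.Agent.N110.PA.Main
import Pool.Agent.N110.RK.Stat
import Pool.Agent.N110.NV.Fin
import Pool.Agent.R887.Exc

/-!
Pairs which are dominated by a variety with an abelian group of birational self-maps which decrease
the numerical class of `K + Δ`: a bound for the numerical dimension, and abundance.
-/

set_option autoImplicit false

open FF Pool.Agent.W602.GT Pool.Agent.Y172 Pool.Agent.R887 Pool.Agent.N110 Pool.Agent.N110.DV
  Pool.Agent.Helper13SM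

/-- Let `X'` be a normal projective variety of dimension `n ≥ 1`, with generic point `y'`, and `Δ'` a
`ℚ`-divisor on `X'` (effective or not). Let `ℤ ^ r` act by birational self-maps `f_v` of `X'`
(commuting birational self-maps `f_1, ..., f_r`), given by the automorphisms `φ v = f_v^*` of the
function field. Suppose one of the following. (1) The divisors `K_X' + Δ' - f_v^* (K_X' + Δ')` are
pseudo-effective. (2) The maps `f_v` are isomorphisms in codimension one, and the divisors
`Δ' - f_v^* Δ'` are pseudo-effective (for all `v` in `ℤ ^ r` this means that `f_v^* Δ'` is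
numerically equivalent to `Δ'`). (3) `Δ' = 0` and `X'` has canonical singularities (no condition on
the maps). Let `s ≥ 1` be at most the growth rank of the action: the degrees
`f_v^* H · H ^ (n - 1)` grow subexponentially only along subspaces of `ℝ ^ r` of codimension at least
`s`. For instance `s = r ≥ 1` if the degrees are at least `c exp (δ |v|)` for some `c, δ > 0`, or if
the maps `f_v` are isomorphisms in codimension one, the first dynamical degree of `f_v` is greater
than `1` for all `v ≠ 0` and the group of the divisors on `X'` modulo numerical equivalence is finitely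
generated (by the theorem of Néron and Severi it always is).

Let `X` be any normal projective variety and `Δ ≥ 0` a `ℚ`-divisor on `X`. Suppose that there is a
dominant generically finite rational map `X' ⇢ X`, given by the homomorphism `π` of the function
fields, such that `K_X' + Δ' - π^* (K_X + Δ)` is pseudo-effective (for instance `X = X'` and
`Δ = Δ'`, or `X' ⟶ X` a resolution and `K_X' + Δ' = π^* (K_X + Δ)`, or a finite morphism and
`Δ' = π^* Δ`), or that `Δ = 0`, `X` has canonical singularities and `Δ'` is effective. The map `π` has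
nothing to do with the maps `f_v`.

Then `s ≤ n - 1`, the numerical dimension of `K_X + Δ` is at most `n - 1 - s`, and so is the Kodaira
dimension. If the Kodaira dimension is at least `n - 1 - s` then the Kodaira dimension and the
numerical dimension of `K_X + Δ` are equal. If `s = n - 1`, and `K_X + Δ` is effective up to
`ℚ`-linear equivalence, or pseudo-effective and the irregularity of `X` is zero, then the Kodaira
dimension is `0`, and so is the numerical dimension which is defined by the growth of the number of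
the sections of `m (K_X + Δ) + A`, for all effective integral divisors `A`. -/
theorem Pool.Agent.Results.MP_c1e25c_ag.ClassPreservingRank.result
    {K K' : Type} [Field K] [Algebra ℂ K] [Field K'] [Algebra ℂ K'] {N N' n : ℕ}
    {y : Fin (N + 1) → K} {y' : Fin (N' + 1) → K'} (hy : NormalModel y) (hy' : NormalModel y')
    (hn : Algebra.trdeg ℂ K = n) (hn' : Algebra.trdeg ℂ K' = n) (hn0 : 0 < n)
    {Δ' : Place ℂ K' → ℚ} (hΔ' : {P | IsPrimeDivisor y' P ∧ Δ' P ≠ 0}.Finite)
    {r s : ℕ} (hs : 0 < s) {φ : (Fin r → ℤ) → (K' ≃ₐ[ℂ] K')} (hφ : ∀ u v, φ (u + v) = φ u * φ v)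
    (hcl : (∀ v, PairClassLe (φ v : K' →ₐ[ℂ] K') y' n Δ' y' Δ') ∨
      (∀ v, PseudoAut (φ v) y' ∧ ClassLe (φ v) y' Δ') ∨ (Δ' = 0 ∧ Canonical y' n))
    (hrank : GrowthRankGe φ y' n s ∨ (s = r ∧ ExpGrowth φ y' n) ∨
      (s = r ∧ NeronSeveri y' ∧ (∀ v, PseudoAut (φ v) y') ∧
        ∀ v, v ≠ 0 → 1 < dynDegree (φ v) y' n 1))
    {Δ : Place ℂ K → ℚ} (hΔ : Effective y Δ) {π : K →ₐ[ℂ] K'}
    (hπ : PairClassLe π y n Δ y' Δ' ∨
      (Δ = 0 ∧ Canonical y n ∧ ∀ P, IsPrimeDivisor y' P → 0 ≤ Δ' P)) :
    s < n ∧ NumDimLt y n Δ (n - s) ∧ ¬ KappaGe y n Δ (n - s) ∧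
      (KappaGe y n Δ (n - s - 1) → Abundant y n Δ) ∧
      (s + 1 = n → (KappaGe y n Δ 0 ∨ (LogPsef y n Δ ∧ IrregularityZero y)) →
        kodairaDim y n Δ = ((0 : ℕ) : WithBot ℕ) ∧
          ∀ A, Effective y A → Integral y A → numericalDim y n Δ A = ((0 : ℕ) : EReal)) := by
  have hcl' : ∀ v, PairClassLe (φ v : K' →ₐ[ℂ] K') y' n Δ' y' Δ' := by
    rcases hcl with h | h | ⟨rfl, hcan⟩
    · exact h
    · exact fun v => pair_of_class (h v).1 (h v).2
    · exact fun v => pair_of_canonical hy' hy' hn' hn' hcan (fun _ _ => le_rfl) _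
  have hrank' : GrowthRankGe φ y' n s := by
    rcases hrank with h | ⟨rfl, h⟩ | ⟨rfl, hN, hiso, hent⟩
    · exact h
    · exact RK.growthRank_of_exp h
    · exact RK.growthRank_of_exp (PA.growthN hy' hn' hn0 hN hs hφ hiso hent)
  have hπ' : PairClassLe π y n Δ y' Δ' := by
    rcases hπ with h | ⟨rfl, hcan, h⟩
    · exact h
    · exact pair_of_canonical hy hy' hn hn' hcan h π
  obtain ⟨h1, h2'⟩ := rank_mainP hy' hn' hn0 hΔ' hs hφ hcl' hrank'
  have h2 := numDimLt_imgP hy hy' hn hn' hπ' (Nat.sub_le _ _) h2'
  refine ⟨h1, h2, ?_, fun h => ⟨n - s - 1, h, ?_⟩, fun h3 h4 => ?_⟩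
  · rintro ⟨m, hm, ω, E, hω, h0, hind⟩
    exact kappa_lt hy hn (Nat.sub_le _ _) h2 hm hω h0 hind
  · rwa [show n - s - 1 + 1 = n - s by omega]
  · rw [show n - s = 1 by omega] at h2
    rcases h4 with ⟨m, hm, ω, E, hω, h0, -⟩ | ⟨hpsef, hq⟩
    · refine abundance_zero hy hn hn0 hΔ h2 hm (hω 0) fun h4 => h0 ?_
      rw [h4]
      rfl
    · obtain ⟨m, hm, ω, hω0, hω⟩ := NV.nonvanishing hy hn hn0 hΔ.2 hpsef h2 hq
      exact abundance_zero hy hn hn0 hΔ h2 hm hω hω0
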