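import Pool.Agent.Helper15K1.MM.ExtM

/-!
# The minimal model program by extremal steps on the toroidal models of covers of products of
# projective spaces

Let `F i` be a form of degree `d i` in `n i + 1` variables whose zero set in the projective
`n i`-space is a smooth hypersurface, and let `H i` be the cyclic hypersurface `w ^ (d i) = F i` in
the projective `(n i + 1)`-space. Let `K` be the function field of a quotient
`Y = (H 1 × ... × H r) / G`, where `G` is any group of diagonal automorphisms
`w i ↦ ζ i * w i`, `ζ i ^ (d i) = 1`. Equivalently, `K` is generated by the affine coordinates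
`x i j / x i 0` of the product of the projective `n i`-spaces and by roots `z j`,
`z j ^ (m j) = ∏ i, (F i (x i) / x i 0 ^ (d i)) ^ (a j i)`, where `m j` divides `a j i * d i`: the
abelian covers of the product of the projective spaces which are branched along the hypersurfaces
`F i = 0` of the factors. There is no condition on the dimensions and the degrees, so `Y` can be
rationally connected, Calabi-Yau, of general type, or of any intermediate Kodaira dimension.

A prime divisor `P` over `Y` (a divisorial place of `K`) has the vector `multiplicities F d x P` of the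
multiplicities `v i` of the hypersurfaces along `P`. The vectors `v ≠ 0` of nonnegative integers with
`m j ∣ ∑ i, a j i * v i` for all `j` are the `Admissible` ones: the nonzero points, in the positive
orthant, of the lattice of the toroidal variety `Y`.

**The varieties.** The toroidal modifications `X` of `Y` are given by the subdivisions (fans) of the
positive orthant into rational polyhedral cones; `fan` is the set of the maximal cones, each given by
a finite set of admissible generators which span the space. If the cones are simplicial then `X` is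
`ℚ`-factorial.

**The divisors.** `D 1, ..., D p` are toroidal `ℚ`-Cartier divisors on `X`: sums of multiples `β i t`
of the hyperplane classes of the factors and of the prime divisors of the boundary of `X`. The
coefficient of the pullback of `D i` at a prime divisor `P` over `X` is
`δ i P = coefficient F d x (c i) (β i) P = c i v + ∑ t, β i t * h t`, where `v` is the vector of the
multiplicities, `h t` is minus the minimal order at `P` of the homogeneous coordinates of the `t`-th
factor, and `- c i v = ∑ k, u σ i k * v k` on the cone `σ`. Take a `ℚ`-factorial `X` and divisors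
`D i` whose classes are a basis of the space of the classes of toroidal `ℚ`-divisors. If all
`n i ≥ 3` then every divisor on `X` is, up to `ℚ`-linear equivalence, toroidal (Lefschetz; this remark
is not used and not proved here), so `p` is the Picard number of `X`.

**The pairs.** Let `(X, Δ)` be a pair such that `K_X + Δ` is `ℚ`-linearly equivalent to a rational
combination `∑ i, κ i * D i`. If all `n i ≥ 3` this is the case for every pair `(X, Δ)`, for all
boundaries `Δ`, klt, log canonical or not, big or not, toroidal or not. Nothing is assumed about `κ`.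

**The models.** A `ℚ`-factorial projective variety `X'` with a birational map `X --> X'` whose
inverse contracts no divisor is described by the coefficients `δ' i P` of the pullbacks of the images
of the `D i` at the prime divisors `P` over `X`. The combination `μ0` is ample on `X'`, and `X'` is
the image of `X` by its multiples, if all rational combinations near `μ0` are semiample on `X'` and
have there the same sections as on `X`: `AmpleOn`.

**The theorem.** There is a number `B`, which depends only on `X`, such that for every class `κ` of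
`K_X + Δ` and every ample combination `lam` outside finitely many hyperplanes (which depend on `κ`)
the minimal model program for `K_X + Δ` with scaling of the ample divisor `A` of the class `lam`
exists and has less than `B` steps, each of them is the divisorial contraction or the flip of an
extremal ray, and it ends with a good minimal model or with a Mori fibre space of relative Picard
number one. More precisely, there are `0 = τ 0 < τ 1 < ... < τ L`, models
`X = X 0, X 1, ..., X L` with the coefficients `δs j i P`, and linear forms `l j`
(`pairing (l j) μ` is the degree of the combination `μ` on the contracted curves of `X j`, the ray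
`R j`), such that
(1) the combination `lam + t κ` is ample on `X j` for `τ j < t < τ (j + 1)`;
(2) (`IsExtremalStep`) `(K_X + Δ) · R j < 0` and `(A + τ (j + 1) (K_X + Δ)) · R j = 0`; a
combination `μ` near `lam + τ (j + 1) κ` is semiample on `X j` if `μ · R j ≥ 0`, and semiample on
`X (j + 1)` if `μ · R j ≤ 0`: near `lam + τ (j + 1) κ` the boundary of the ample cone of `X j` is the
hyperplane of the single ray `R j`, the combinations in this hyperplane come from the target of the
contraction `X j → Z` of `R j`, and `X (j + 1) → Z` is the flip (or `X (j + 1) = Z`, if the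
contraction is divisorial);
(3) no discrepancy of `K_X + Δ` decreases in a step, and some discrepancy increases.
At the end there is
(4) a good minimal model (`IsMinimalModel`): `lam + t κ` is ample on `X L` for all `t > τ L`, and
`K_X + Δ` is semiample on `X L`, with the same sections as on `X`; or
(5) a Mori fibre space (`IsMoriFibreSpace`): for some `T > τ L` and a linear form `l'` (the degree on
the curves of an extremal ray `R`), `lam + t κ` is ample on `X L` for `τ L < t < T`,
`(K_X + Δ) · R < 0`, `(A + T (K_X + Δ)) · R = 0`, the combinations `μ` near `lam + T κ` with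
`μ · R ≥ 0` are semiample on `X L`, no multiple of a combination `μ` with `μ · R < 0` has a nonzero
section (the curves of the ray cover `X L`), and the image of `X L` by the multiples of `lam + T κ`,
the target of the contraction of `R`, has smaller dimension.
-/

set_option autoImplicit false

open FF MvPolynomial Pool.Agent.W602.GT

namespace Pool.Agent.Results.MP_c1e25c_ag.ExtremalProgram

/-- The form `F` has no singular zeros: its partial derivatives have no common zero but `0`. -/
def Smooth {n : ℕ} (F : MvPolynomial (Fin (n + 1)) ℂ) : Prop :=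
  ∀ x : Fin (n + 1) → ℂ, x ≠ 0 → ∃ l, eval x (pderiv l F) ≠ 0

section fans

variable {r R : ℕ}

/-- The multiplicities which satisfy the divisibility conditions. -/
def Admissible (m : Fin R → ℕ) (a : Fin R → Fin r → ℕ) (v : Fin r → ℕ) : Prop :=
  v ≠ 0 ∧ ∀ j, m j ∣ ∑ i, a j i * v i

/-- The vector `v` is in the cone which is generated by the vectors in `σ`. -/
def InCone (σ : Finset (Fin r → ℕ)) (v : Fin r → ℕ) : Prop :=
  ∃ w : (Fin r → ℕ) → ℚ, (∀ s, 0 ≤ w s) ∧ ∀ k, (v k : ℚ) = ∑ s ∈ σ, w s * s k

/-- `fan` is a finite set of cones, each generated by a finite set of admissible vectors which span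
the whole space, which cover all admissible vectors. -/
structure IsFan (m : Fin R → ℕ) (a : Fin R → Fin r → ℕ) (fan : Finset (Finset (Fin r → ℕ))) :
    Prop where
  adm : ∀ σ ∈ fan, ∀ s ∈ σ, Admissible m a s
  full : ∀ σ ∈ fan, ∀ f : Fin r → ℚ, ∃ q : (Fin r → ℕ) → ℚ, ∀ k, f k = ∑ s ∈ σ, q s * s k
  cover : ∀ v, Admissible m a v → ∃ σ ∈ fan, InCone σ v

end fans

section places

variable {r : ℕ} {n : Fin r → ℕ} {K : Type} [Field K] [Algebra ℂ K]

/-- The affine coordinates of the product of the projective spaces. -/
noncomputable def affine (x : ∀ i, Fin (n i + 1) → K) (b : (i : Fin r) × Fin (n i)) : K :=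
  x b.1 b.2.succ / x b.1 0

/-- The minimal order at `P` of the homogeneous coordinates `y`. -/
noncomputable def minimalOrder {n : ℕ} (y : Fin (n + 1) → K) (P : Place ℂ K) : ℤ :=
  Finset.univ.inf' Finset.univ_nonempty fun j => P.ord (y j)

/-- The multiplicities of the hypersurfaces `F i = 0` along the prime divisor `P`; the `x i j` are the
homogeneous coordinates of the `i`-th factor, which are divided by one of minimal order at `P`. -/
noncomputable def multiplicities (F : ∀ i, MvPolynomial (Fin (n i + 1)) ℂ) (d : Fin r → ℕ)
    (x : ∀ i, Fin (n i + 1) → K) (P : Place ℂ K) (i : Fin r) : ℕ :=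
  (P.ord (aeval (x i) (F i)) - d i * minimalOrder (x i) P).toNat

/-- The coefficient at the prime divisor `P` of the divisor with the function `c` of the
multiplicities and the degrees `β t`: it is `c v` plus `β t` times the coefficient at `P` of the
hyperplane class of the `t`-th factor, which is represented by the divisor with the coefficients
`- minimalOrder (x t) P` (its sections are the linear forms in the `x t j`). -/
noncomputable def coefficient (F : ∀ i, MvPolynomial (Fin (n i + 1)) ℂ) (d : Fin r → ℕ)
    (x : ∀ i, Fin (n i + 1) → K) (c : (Fin r → ℕ) → ℚ) (β : Fin r → ℤ) (P : Place ℂ K) : ℚ :=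
  c (multiplicities F d x P) - ∑ t, (β t : ℚ) * minimalOrder (x t) P

end places

section divisors

variable {K : Type} [Field K] [Algebra ℂ K] {p : ℕ} (N : ℕ) (δ : Fin p → Place ℂ K → ℚ)

/-- `f` is a section of `∑ i, μ i * D i`: its order at every prime divisor `P` over `X` (every
divisorial place `P` of `K`) is at least minus the coefficient `∑ i, μ i * δ i P` of the pullback of
`∑ i, μ i * D i`, or `f = 0`. -/
def IsSection (μ : Fin p → ℤ) (f : K) : Prop :=
  ∀ P : Place ℂ K, Divisorial N P → f = 0 ∨ - ∑ i, (μ i : ℚ) * δ i P ≤ P.ord f

/-- The linear system of the integral combination `∑ i, μ i * D i` has no base points on `X`: it has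
for every prime divisor `P` over `X` a section whose order at `P` is the minimal one. -/
def BasePointFree (μ : Fin p → ℤ) : Prop :=
  ∀ P : Place ℂ K, Divisorial N P → ∃ f : K, f ≠ 0 ∧ IsSection N δ μ f ∧
    (P.ord f : ℚ) ≤ - ∑ i, (μ i : ℚ) * δ i P

/-- A positive multiple of the rational combination `∑ i, μ i * D i` is an integral combination
without base points. -/
def Semiample (μ : Fin p → ℚ) : Prop :=
  ∃ k : ℕ, 1 ≤ k ∧ ∃ ν : Fin p → ℤ, (∀ i, (k : ℚ) * μ i = ν i) ∧ BasePointFree N δ ν

/-- All the rational combinations near `A` are semiample on `X`: this holds if the combination `A` is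
ample. -/
def IsAmple (A : Fin p → ℚ) : Prop :=
  ∃ ε : ℚ, 0 < ε ∧ ∀ μ : Fin p → ℚ, (∀ i, |μ i - A i| ≤ ε) → Semiample N δ μ

/-- The divisor with the coefficients `γ P` at the prime divisors `P` over `X` is the semiample part
of the rational combination `μ`: its multiples have the same sections as the multiples of `μ`, and
some multiple has no base points (for every `P` it has a section whose order at `P` is the minimal
one). -/
def IsSemiamplePart (μ : Fin p → ℚ) (γ : Place ℂ K → ℚ) : Prop :=
  (∀ (m : ℕ) (ν : Fin p → ℤ), (∀ i, (m : ℚ) * μ i = ν i) → ∀ f : K,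
    (IsSection N δ ν f ↔ ∀ P : Place ℂ K, Divisorial N P → f = 0 ∨ - (m * γ P) ≤ P.ord f)) ∧
  ∃ m : ℕ, 1 ≤ m ∧ ∃ ν : Fin p → ℤ, (∀ i, (m : ℚ) * μ i = ν i) ∧
    ∀ P : Place ℂ K, Divisorial N P → ∃ f : K, f ≠ 0 ∧ IsSection N δ ν f ∧
      (P.ord f : ℚ) ≤ - (m * γ P)

/-- The ratios of the sections of the multiples of the rational combination `μ` contain `N`
algebraically independent functions (`N = dim X`): the image of `X` by a multiple of `μ` has the
dimension of `X`. -/
def Big (μ : Fin p → ℚ) : Prop :=
  ∃ y : Fin N → K, AlgebraicIndependent ℂ y ∧ ∀ i, ∃ (m : ℕ) (ν : Fin p → ℤ), 1 ≤ m ∧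
    (∀ i', (m : ℚ) * μ i' = ν i') ∧
      ∃ f g : K, g ≠ 0 ∧ IsSection N δ ν f ∧ IsSection N δ ν g ∧ y i = f / g

/-- The rational combination `lam + t κ`. -/
def combination (κ lam : Fin p → ℚ) (t : ℚ) : Fin p → ℚ := fun i => lam i + t * κ i

/-- The value at the rational combination `μ` of the linear form `l` (the degree of `μ` on the curves
of a ray). -/
def pairing (l μ : Fin p → ℚ) : ℚ := ∑ i, l i * μ i

/-- The rational combinations `μ` near `μ0` which satisfy `S` are semiample on the model with the
coefficients `δ'`, and their multiples have there the same sections as on `X`. -/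
def SemiampleNear (μ0 : Fin p → ℚ) (S : (Fin p → ℚ) → Prop) (δ' : Fin p → Place ℂ K → ℚ) : Prop :=
  ∃ ε : ℚ, 0 < ε ∧ ∀ μ : Fin p → ℚ, (∀ i, |μ i - μ0 i| ≤ ε) → S μ →
    IsSemiamplePart N δ μ fun P => ∑ i, μ i * δ' i P

/-- The combination `μ0` is ample on the model with the coefficients `δ'`: all the rational
combinations near `μ0` are semiample there, and their multiples have the same sections as on `X`. -/
def AmpleOn (μ0 : Fin p → ℚ) (δ' : Fin p → Place ℂ K → ℚ) : Prop :=
  SemiampleNear N δ μ0 (fun _ => True) δ'

/-- The step from the model with the coefficients `δ'` to the model with the coefficients `δ''` is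
the contraction or the flip of an extremal ray, with the degrees `pairing l`, on which `κ` is
negative and `μ0` is trivial: near `μ0`, the combinations of nonnegative degree are semiample on the
first model and the combinations of nonpositive degree are semiample on the second model. No
discrepancy decreases, and some discrepancy increases. -/
structure IsExtremalStep (κ μ0 l : Fin p → ℚ) (δ' δ'' : Fin p → Place ℂ K → ℚ) : Prop where
  negative : pairing l κ < 0
  trivial : pairing l μ0 = 0
  before : SemiampleNear N δ μ0 (fun μ => 0 ≤ pairing l μ) δ'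
  after : SemiampleNear N δ μ0 (fun μ => pairing l μ ≤ 0) δ''
  discrepancy : (∀ P : Place ℂ K, Divisorial N P → ∑ i, κ i * δ'' i P ≤ ∑ i, κ i * δ' i P) ∧
    ∃ P : Place ℂ K, Divisorial N P ∧ ∑ i, κ i * δ'' i P < ∑ i, κ i * δ' i P

/-- The minimal model program for `κ` with scaling of `lam`, which starts at `X`: `L` extremal steps,
at the times `τ 1 < ... < τ L`. -/
structure IsProgram (κ lam : Fin p → ℚ) (L : ℕ) (τ : ℕ → ℚ) (δs : ℕ → Fin p → Place ℂ K → ℚ)
    (l : ℕ → Fin p → ℚ) : Prop where
  /-- the program starts at `X` -/
  start : τ 0 = 0 ∧ ∀ P : Place ℂ K, Divisorial N P → ∀ i, δs 0 i P = δ i P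
  mono : ∀ j < L, τ j < τ (j + 1)
  ample : ∀ j < L, ∀ t : ℚ, τ j < t → t < τ (j + 1) →
    AmpleOn N δ (combination κ lam t) (δs j)
  step : ∀ j < L, IsExtremalStep N δ κ (combination κ lam (τ (j + 1))) (l j) (δs j) (δs (j + 1))

/-- The model with the coefficients `δ'`, which is reached at the time `s`, is a good minimal model:
`lam + t κ` is ample on it for all `t > s`, and `κ` is semiample on it and has the same sections as
on `X`. -/
def IsMinimalModel (κ lam : Fin p → ℚ) (s : ℚ) (δ' : Fin p → Place ℂ K → ℚ) : Prop :=
  (∀ t : ℚ, s < t → AmpleOn N δ (combination κ lam t) δ') ∧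
    IsSemiamplePart N δ κ fun P => ∑ i, κ i * δ' i P

/-- The model with the coefficients `δ'`, which is reached at the time `s`, is a Mori fibre space of
relative Picard number one, given by an extremal ray with the degrees `pairing l`. -/
def IsMoriFibreSpace (κ lam : Fin p → ℚ) (s : ℚ) (δ' : Fin p → Place ℂ K → ℚ) : Prop :=
  ∃ (T : ℚ) (l : Fin p → ℚ), s < T ∧
    (∀ t : ℚ, s < t → t < T → AmpleOn N δ (combination κ lam t) δ') ∧
    pairing l κ < 0 ∧ pairing l (combination κ lam T) = 0 ∧
    SemiampleNear N δ (combination κ lam T) (fun μ => 0 ≤ pairing l μ) δ' ∧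
    (∀ μ : Fin p → ℚ, pairing l μ < 0 → ∀ (m : ℕ) (ν : Fin p → ℤ), 1 ≤ m →
      (∀ i, (m : ℚ) * μ i = ν i) → ∀ f : K, IsSection N δ ν f → f = 0) ∧
    ¬ Big N δ (combination κ lam T)

end divisors

/-- **The minimal model program by extremal steps.** Let `K` be the function field of an abelian
cover `Y` of the product of the projective `n i`-spaces which is branched along smooth hypersurfaces
`F i = 0` of the factors, `X` the projective toroidal modification of `Y` which is given by `fan`, and
`D i`, `i < p`, toroidal `ℚ`-Cartier divisors on `X` with the degrees `β i t` and the coefficients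
`c i`. There is a number `B` such that for every rational combination `κ` (the class of `K_X + Δ`)
there are finitely many hyperplanes, such that for every ample combination `lam` outside them the
minimal model program for `κ` with scaling of `lam` which starts at `X` exists, consists of less than
`B` extremal steps, and ends with a good minimal model or a Mori fibre space of relative Picard
number one. -/
theorem result (r N R p : ℕ) (n d : Fin r → ℕ) (hr : 1 ≤ r) (hn : ∀ i, 1 ≤ n i)
    (hd : ∀ i, 1 ≤ d i) (hN : N = ∑ i, n i)
    (F : ∀ i, MvPolynomial (Fin (n i + 1)) ℂ) (hF : ∀ i, (F i).IsHomogeneous (d i))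
    (hs : ∀ i, Smooth (F i)) (m : Fin R → ℕ) (hm : ∀ j, 1 ≤ m j) (a : Fin R → Fin r → ℕ)
    (hdiv : ∀ j i, m j ∣ a j i * d i)
    (K : Type) [Field K] [Algebra ℂ K] (x : ∀ i, Fin (n i + 1) → K) (hx0 : ∀ i, x i 0 ≠ 0)
    (hbas : IsTranscendenceBasis ℂ (affine x)) (z : Fin R → K)
    (hz : ∀ j, z j ^ m j = ∏ i, (aeval (x i) (F i) / x i 0 ^ d i) ^ a j i)
    (hgen : IntermediateField.adjoin ℂ (Set.range (affine x) ∪ Set.range z) = ⊤)
    (fan : Finset (Finset (Fin r → ℕ))) (hfan : IsFan m a fan)
    (c : Fin p → (Fin r → ℕ) → ℚ) (hc0 : ∀ i, c i 0 = 0) (β : Fin p → Fin r → ℤ)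
    (u : Finset (Fin r → ℕ) → Fin p → Fin r → ℚ)
    (hlin : ∀ σ ∈ fan, ∀ i v, Admissible m a v → InCone σ v → - c i v = ∑ k, u σ i k * v k)
    (δ : Fin p → Place ℂ K → ℚ) (hδ : ∀ i P, δ i P = coefficient F d x (c i) (β i) P) :
    ∃ B : ℕ, ∀ κ : Fin p → ℚ, ∃ Λ : Finset (Fin p → ℚ), (∀ h ∈ Λ, h ≠ 0) ∧
      ∀ lam : Fin p → ℚ, IsAmple N δ lam → (∀ h ∈ Λ, pairing h lam ≠ 0) →
      ∃ (L : ℕ) (τ : ℕ → ℚ) (δs : ℕ → Fin p → Place ℂ K → ℚ) (l : ℕ → Fin p → ℚ), L < B ∧
        IsProgram N δ κ lam L τ δs l ∧
        (IsMinimalModel N δ κ lam (τ L) (δs L) ∨ IsMoriFibreSpace N δ κ lam (τ L) (δs L)) := by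
  have hN1 : 1 ≤ N := by
    have h1 : n ⟨0, hr⟩ ≤ ∑ i, n i :=
      Finset.single_le_sum (f := n) (fun _ _ => Nat.zero_le _) (Finset.mem_univ _)
    have h2 := hn ⟨0, hr⟩
    omega
  obtain ⟨B, hB⟩ := Pool.Agent.Helper15K1.MM.main_ext (δ := δ)
    (Pool.Agent.Q57.CX.main_cox (N := N) hr hn hN hd hF hs hx0 hbas hm hdiv
      hz hgen (S := fan) ⟨hfan.adm, hfan.full, hfan.cover⟩ hc0 (u := u) hlin (β := β) hδ) hN1
    (Pool.Agent.Helper15K1.MM.trdeg_of_basis hN hbas)
    (Pool.Agent.Helper15K1.MM.exists_div hr hn hN hd hF hs hx0 hbas hm hdiv hz hgen)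
  refine ⟨B, fun κ => ?_⟩
  obtain ⟨Λ, hΛ0, hΛ⟩ := hB κ
  refine ⟨Λ, hΛ0, fun lam hamp hlam => ?_⟩
  obtain ⟨L, τ, δs, l, h1, h2, h3, h4, h5, h6, h7⟩ := hΛ lam hamp hlam
  exact ⟨L, τ, δs, l, h1, ⟨h2, h3, h4, fun j hj => ⟨(h5 j hj).1, (h5 j hj).2.1, (h5 j hj).2.2.1,
    (h5 j hj).2.2.2, h6 j hj⟩⟩, h7⟩

end Pool.Agent.Results.MP_c1e25c_ag.ExtremalProgram
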