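import Pool.Agent.Helper13SM.PMain
import Pool.Agent.Helper13SM.PEx
import Pool.Agent.N110.NV.Fin
import Pool.Agent.R887.Exc

/-!
Pairs which are dominated by a variety with a group of birational self-maps which decrease the
numerical class of `K + Δ`: the numerical dimension is bounded by the number of the consecutive
greatest joint dynamical degrees.
-/

set_option autoImplicit false

open FF Pool.Agent.W602.GT Pool.Agent.Y172 Pool.Agent.R887 Pool.Agent.N110 Pool.Agent.N110.DV
  Pool.Agent.Helper13SM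

/-- Let `X'` be a normal projective variety of dimension `n`, with generic point `y'`, and `Δ'` a
`ℚ`-divisor on `X'` (effective or not). Let `S` be a set of birational self-maps `f` of `X'` of bounded
degrees (a finite set of generators of a group, commutative or not, for instance), given by the
automorphisms `φ = f^*` of the function field. Suppose one of the following. (1) The divisors
`K_X' + Δ' - f^* (K_X' + Δ')` are pseudo-effective for all maps `f` in `S` and their inverses.
(2) The maps `f` in `S` are isomorphisms in codimension one, and the divisors `Δ' - f^* Δ'` are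
pseudo-effective for all maps `f` in `S` and their inverses (`f^* Δ'` is numerically equivalent to
`Δ'`, for instance). (3) `Δ' = 0` and `X'` has canonical singularities (no condition on the maps).
Suppose that the greatest of the joint dynamical degrees `λ 0, ..., λ n` of `S` is not attained at
`ν + 1` consecutive indices; here `λ p` is the upper limit, for `l → ∞`, of the `l`-th root of the
greatest of the degrees `(g^* H) ^ p · H ^ (n - p)` of the compositions `g` of `l` maps in `S`.

Let `X` be any normal projective variety and `Δ ≥ 0` a `ℚ`-divisor on `X`. Suppose that there is a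
dominant generically finite rational map `X' ⇢ X`, given by the homomorphism `π` of the function
fields, such that `K_X' + Δ' - π^* (K_X + Δ)` is pseudo-effective (for instance `X = X'` and
`Δ = Δ'`), or that `Δ = 0`, `X` has canonical singularities and `Δ'` is effective. The map `π` has
nothing to do with the maps in `S`.

Then the numerical dimension of `K_X + Δ` is less than `ν`, and so is the Kodaira dimension. If
`ν ≥ 1` and the Kodaira dimension is at least `ν - 1` then the Kodaira dimension and the numerical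
dimension of `K_X + Δ` are equal. If `ν = 1`, and `K_X + Δ` is effective up to `ℚ`-linear
equivalence, or pseudo-effective and the irregularity of `X` is zero, then the Kodaira dimension is
`0`, and so is the numerical dimension which is defined by the growth of the number of the sections of
`m (K_X + Δ) + A`, for all effective integral divisors `A`. -/
theorem Pool.Agent.Results.MP_c1e25c_ag.JointDegreePlateau.result
    {K K' : Type} [Field K] [Algebra ℂ K] [Field K'] [Algebra ℂ K'] {N N' n : ℕ}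
    {y : Fin (N + 1) → K} {y' : Fin (N' + 1) → K'} (hy : NormalModel y) (hy' : NormalModel y')
    (hn : Algebra.trdeg ℂ K = n) (hn' : Algebra.trdeg ℂ K' = n) (hn0 : 0 < n)
    {Δ' : Place ℂ K' → ℚ} (hΔ' : {P | IsPrimeDivisor y' P ∧ Δ' P ≠ 0}.Finite)
    {S : Set (K' ≃ₐ[ℂ] K')}
    (hcl : (∀ φ ∈ S, PairClassLe (φ : K' →ₐ[ℂ] K') y' n Δ' y' Δ' ∧
        PairClassLe ((φ⁻¹ : K' ≃ₐ[ℂ] K') : K' →ₐ[ℂ] K') y' n Δ' y' Δ') ∨
      (∀ φ ∈ S, PseudoAut φ y' ∧ ClassLe φ y' Δ' ∧ ClassLe φ⁻¹ y' Δ') ∨
      (Δ' = 0 ∧ Canonical y' n))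
    {C : ℕ} (hC : ∀ φ ∈ S, mixedDegree φ y' n 1 ≤ C) {ν : ℕ} (hν : ν ≤ n)
    (hdeg : ∀ j, j + ν ≤ n → ∃ a ≤ ν, ∃ p ≤ n, jointDegree S y' n (j + a) < jointDegree S y' n p)
    {Δ : Place ℂ K → ℚ} (hΔ : Effective y Δ) {π : K →ₐ[ℂ] K'}
    (hπ : PairClassLe π y n Δ y' Δ' ∨
      (Δ = 0 ∧ Canonical y n ∧ ∀ P, IsPrimeDivisor y' P → 0 ≤ Δ' P)) :
    NumDimLt y n Δ ν ∧ ¬ KappaGe y n Δ ν ∧
      (1 ≤ ν → KappaGe y n Δ (ν - 1) → Abundant y n Δ) ∧
      (ν = 1 → (KappaGe y n Δ 0 ∨ (LogPsef y n Δ ∧ IrregularityZero y)) →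
        kodairaDim y n Δ = ((0 : ℕ) : WithBot ℕ) ∧
          ∀ A, Effective y A → Integral y A → numericalDim y n Δ A = ((0 : ℕ) : EReal)) := by
  have hcl' : ∀ φ ∈ S, PairClassLe (φ : K' →ₐ[ℂ] K') y' n Δ' y' Δ' ∧
      PairClassLe ((φ⁻¹ : K' ≃ₐ[ℂ] K') : K' →ₐ[ℂ] K') y' n Δ' y' Δ' := by
    rcases hcl with h | h | ⟨rfl, hcan⟩
    · exact h
    · intro φ hφ
      obtain ⟨h1, h2, h3⟩ := h φ hφ
      refine ⟨pair_of_class h1 h2, pair_of_class (fun P Q hPQ => ?_) h3⟩
      refine (h1 Q P fun g => ?_).symm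
      have h4 := hPQ (φ g)
      have h5 : φ⁻¹ (φ g) = g := φ.symm_apply_apply g
      rw [h5] at h4
      exact h4.symm
    · exact fun φ _ => ⟨pair_of_canonical hy' hy' hn' hn' hcan (fun _ _ => le_rfl) _,
        pair_of_canonical hy' hy' hn' hn' hcan (fun _ _ => le_rfl) _⟩
  have hπ' : PairClassLe π y n Δ y' Δ' := by
    rcases hπ with h | ⟨rfl, hcan, h⟩
    · exact h
    · exact pair_of_canonical hy hy' hn hn' hcan h π
  have h2' : NumDimLt y' n Δ' ν := by
    by_contra hnum
    obtain ⟨j, hj, h4⟩ := plateauP hy' hn' hΔ' (fun φ hφ => (hcl' φ hφ).1)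
      (fun φ hφ => (hcl' φ hφ).2) hC hν hnum
    obtain ⟨a, ha, p, hp, hlt⟩ := hdeg j hj
    exact absurd hlt (not_lt.2 (h4 a ha p hp))
  have h2 := numDimLt_imgP hy hy' hn hn' hπ' hν h2'
  refine ⟨h2, ?_, fun h1 h => ⟨ν - 1, h, ?_⟩, ?_⟩
  · rintro ⟨m, hm, ω, E, hω, h0, hind⟩
    exact kappa_lt hy hn hν h2 hm hω h0 hind
  · rwa [show ν - 1 + 1 = ν by omega]
  · rintro rfl h4
    rcases h4 with ⟨m, hm, ω, E, hω, h0, -⟩ | ⟨hpsef, hq⟩
    · refine abundance_zero hy hn hn0 hΔ h2 hm (hω 0) fun h4 => h0 ?_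
      rw [h4]
      rfl
    · obtain ⟨m, hm, ω, hω0, hω⟩ := NV.nonvanishing hy hn hn0 hΔ.2 hpsef h2 hq
      exact abundance_zero hy hn hn0 hΔ h2 hm hω hω0
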