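import Pool.Agent.Helper15K1.MM.Cls

/-!
# The minimal model program with scaling on the toroidal models of covers of products of projective
# spaces

Let `F i` be a form of degree `d i` in `n i + 1` variables whose zero set in the projective
`n i`-space is a smooth hypersurface, and let `H i` be the cyclic hypersurface `w ^ (d i) = F i` in
the projective `(n i + 1)`-space. Let `K` be the function field of a quotient
`Y = (H 1 × ... × H r) / G`, where `G` is any group of diagonal automorphisms
`w i ↦ ζ i * w i`, `ζ i ^ (d i) = 1`. Equivalently, `K` is generated by the affine coordinates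
`x i j / x i 0` of the product of the projective `n i`-spaces and by roots `z j`,
`z j ^ (m j) = ∏ i, (F i (x i) / x i 0 ^ (d i)) ^ (a j i)`, where `m j` divides `a j i * d i`: the
abelian covers of the product of the projective spaces which are branched along the hypersurfaces
`F i = 0` of the factors. There is no condition on the dimensions and the degrees, so `Y` can be
rationally connected, Calabi-Yau, of general type, or of any intermediate Kodaira dimension.

A prime divisor `P` over `Y` (a divisorial place of `K`) has the vector `multiplicities F d x P` of the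
multiplicities `v i` of the hypersurfaces along `P`. The vectors `v ≠ 0` of nonnegative integers with
`m j ∣ ∑ i, a j i * v i` for all `j` are the `Admissible` ones: the nonzero points, in the positive
orthant, of the lattice of the toroidal variety `Y`.

**The varieties.** The toroidal modifications `X` of `Y` are given by the subdivisions (fans) of the
positive orthant into rational polyhedral cones; `fan` is the set of the maximal cones, each given by
a finite set of admissible generators which span the space.

**The divisors.** `D 1, ..., D p` are toroidal `ℚ`-Cartier divisors on `X`: sums of multiples `β i t`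
of the hyperplane classes of the factors and of the prime divisors of the boundary of `X`. The
coefficient of the pullback of `D i` at a prime divisor `P` over `X` is
`δ i P = coefficient F d x (c i) (β i) P = c i v + ∑ t, β i t * h t`, where `v` is the vector of the
multiplicities, `h t` is minus the minimal order at `P` of the homogeneous coordinates of the `t`-th
factor, and `- c i v = ∑ k, u σ i k * v k` on the cone `σ`. The variety `X` is projective, and some
rational combination of the `D i` is ample (`IsAmple`: the rational combinations near it are
semiample). If all `n i ≥ 3` then every divisor on `X` is, up to `ℚ`-linear equivalence, toroidal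
(Lefschetz; this remark is not used and not proved here).

**The pairs.** Let `(X, Δ)` be a pair such that `K_X + Δ` is `ℚ`-linearly equivalent to a rational
combination `∑ i, κ i * D i`. If all `n i ≥ 3` and the `D i` generate all toroidal `ℚ`-Cartier
divisors this is the case for every pair `(X, Δ)`, for all boundaries `Δ`, klt, log canonical or not,
big or not, toroidal or not. Nothing is assumed about `κ`.

**The models.** Let `X'` be a normal projective variety with a birational map `X --> X'` whose
inverse contracts no divisor, such that the pushforward `K'` of `K_X + Δ` is `ℚ`-Cartier and the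
prime divisors on `X` which are contracted have coefficients in the pullback of `K'` which are not
larger than in `K_X + Δ` (`X` itself; or the varieties in a minimal model program for `K_X + Δ`, by
the negativity lemma). Let `k P` be the coefficients of the pullback of `K'` at the prime divisors `P`
over `X` (so that the discrepancy of `X'` along `P` is `- k P` plus a number which depends only on
`P`). Let `α P` be the coefficients of the pullback of an ample `ℚ`-divisor `A'` on `X'`, and `lam` a
combination such that `∑ i, lam i * D i` is the image of this pullback on `X`. For small rational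
`t ≥ 0` the divisor `A' + t K'` on `X'` is ample, and its multiples have the same sections as those of
the combination `lam + t κ` on `X`: the divisor with the coefficients `α P + t * k P` is the semiample
part of the combination `lam + t κ` (`IsSemiamplePart`). This is `IsModel`. For `X` itself `A'` is any
ample combination `lam`, and `α`, `k` are the coefficients of `lam` and `κ`.

**The theorem.** There is a number `B`, which depends only on `X`, such that for every pair, every
model `X 0` and every ample divisor `A` on it, the minimal model program with scaling of `A` exists,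
has less than `B` steps, and ends with a good minimal model or with a Mori fibre space. More
precisely, there are `0 = τ 0 < τ 1 < ... < τ L`, `L < B`, and models `X 0, ..., X L` with the
coefficients `αs j`, `ks j` of the divisors `A j`, `K j` (the images of `A` and of `K_X + Δ`), such that
`A j + t K j` is semiample on `X j` and has the sections of `lam + t κ` for all rational `t` with
`τ j ≤ t ≤ τ (j + 1)`. So `X j` is the image of `X` by the multiples of `lam + t κ` for
`τ j < t < τ (j + 1)`, and the image `Z j` for `t = τ (j + 1)` is the target of morphisms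
`X j → Z j ← X (j + 1)`, on which `A j + t K j` is trivial; thus `- K j` is ample over `Z j` and
`K (j + 1)` is ample over `Z j`: the step is a divisorial contraction or a flip for `K_X + Δ`, or a
contraction of a face followed by the log canonical model. No discrepancy decreases in a step and
some discrepancy increases (`IsProgram.neg`). At the end there is
(1) a good minimal model (`IsMinimalModel`): `A L + t K L` is semiample for all `t ≥ τ L`, and `K L`
is semiample and has the same sections as `K_X + Δ` in all multiples; or
(2) a Mori fibre space (`IsMoriFibreSpace`): there is `T > τ L` such that `A L + t K L` is semiample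
for `τ L ≤ t ≤ T`, no multiple of `lam + t κ` has a nonzero section if `t > T` (so `K_X + Δ` is not
pseudo-effective), and the sections of the multiples of `lam + T κ` map `X L` to a variety `Z` with
`dim Z < dim X`; here `A L + T K L` is trivial and so `- K L` is ample over `Z`.
-/

set_option autoImplicit false

open FF MvPolynomial Pool.Agent.W602.GT

namespace Pool.Agent.Results.MP_c1e25c_ag.ProgramWithScaling

/-- The form `F` has no singular zeros: its partial derivatives have no common zero but `0`. -/
def Smooth {n : ℕ} (F : MvPolynomial (Fin (n + 1)) ℂ) : Prop :=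
  ∀ x : Fin (n + 1) → ℂ, x ≠ 0 → ∃ l, eval x (pderiv l F) ≠ 0

section fans

variable {r R : ℕ}

/-- The multiplicities which satisfy the divisibility conditions. -/
def Admissible (m : Fin R → ℕ) (a : Fin R → Fin r → ℕ) (v : Fin r → ℕ) : Prop :=
  v ≠ 0 ∧ ∀ j, m j ∣ ∑ i, a j i * v i

/-- The vector `v` is in the cone which is generated by the vectors in `σ`. -/
def InCone (σ : Finset (Fin r → ℕ)) (v : Fin r → ℕ) : Prop :=
  ∃ w : (Fin r → ℕ) → ℚ, (∀ s, 0 ≤ w s) ∧ ∀ k, (v k : ℚ) = ∑ s ∈ σ, w s * s k

/-- `fan` is a finite set of cones, each generated by a finite set of admissible vectors which span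
the whole space, which cover all admissible vectors. -/
structure IsFan (m : Fin R → ℕ) (a : Fin R → Fin r → ℕ) (fan : Finset (Finset (Fin r → ℕ))) :
    Prop where
  adm : ∀ σ ∈ fan, ∀ s ∈ σ, Admissible m a s
  full : ∀ σ ∈ fan, ∀ f : Fin r → ℚ, ∃ q : (Fin r → ℕ) → ℚ, ∀ k, f k = ∑ s ∈ σ, q s * s k
  cover : ∀ v, Admissible m a v → ∃ σ ∈ fan, InCone σ v

end fans

section places

variable {r : ℕ} {n : Fin r → ℕ} {K : Type} [Field K] [Algebra ℂ K]

/-- The affine coordinates of the product of the projective spaces. -/
noncomputable def affine (x : ∀ i, Fin (n i + 1) → K) (b : (i : Fin r) × Fin (n i)) : K :=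
  x b.1 b.2.succ / x b.1 0

/-- The minimal order at `P` of the homogeneous coordinates `y`. -/
noncomputable def minimalOrder {n : ℕ} (y : Fin (n + 1) → K) (P : Place ℂ K) : ℤ :=
  Finset.univ.inf' Finset.univ_nonempty fun j => P.ord (y j)

/-- The multiplicities of the hypersurfaces `F i = 0` along the prime divisor `P`; the `x i j` are the
homogeneous coordinates of the `i`-th factor, which are divided by one of minimal order at `P`. -/
noncomputable def multiplicities (F : ∀ i, MvPolynomial (Fin (n i + 1)) ℂ) (d : Fin r → ℕ)
    (x : ∀ i, Fin (n i + 1) → K) (P : Place ℂ K) (i : Fin r) : ℕ :=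
  (P.ord (aeval (x i) (F i)) - d i * minimalOrder (x i) P).toNat

/-- The coefficient at the prime divisor `P` of the divisor with the function `c` of the
multiplicities and the degrees `β t`: it is `c v` plus `β t` times the coefficient at `P` of the
hyperplane class of the `t`-th factor, which is represented by the divisor with the coefficients
`- minimalOrder (x t) P` (its sections are the linear forms in the `x t j`). -/
noncomputable def coefficient (F : ∀ i, MvPolynomial (Fin (n i + 1)) ℂ) (d : Fin r → ℕ)
    (x : ∀ i, Fin (n i + 1) → K) (c : (Fin r → ℕ) → ℚ) (β : Fin r → ℤ) (P : Place ℂ K) : ℚ :=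
  c (multiplicities F d x P) - ∑ t, (β t : ℚ) * minimalOrder (x t) P

end places

section divisors

variable {K : Type} [Field K] [Algebra ℂ K] {p : ℕ} (N : ℕ) (δ : Fin p → Place ℂ K → ℚ)

/-- `f` is a section of `∑ i, μ i * D i`: its order at every prime divisor `P` over `X` (every
divisorial place `P` of `K`) is at least minus the coefficient `∑ i, μ i * δ i P` of the pullback of
`∑ i, μ i * D i`, or `f = 0`. -/
def IsSection (μ : Fin p → ℤ) (f : K) : Prop :=
  ∀ P : Place ℂ K, Divisorial N P → f = 0 ∨ - ∑ i, (μ i : ℚ) * δ i P ≤ P.ord f

/-- The linear system of the integral combination `∑ i, μ i * D i` has no base points on `X`: it has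
for every prime divisor `P` over `X` a section whose order at `P` is the minimal one. -/
def BasePointFree (μ : Fin p → ℤ) : Prop :=
  ∀ P : Place ℂ K, Divisorial N P → ∃ f : K, f ≠ 0 ∧ IsSection N δ μ f ∧
    (P.ord f : ℚ) ≤ - ∑ i, (μ i : ℚ) * δ i P

/-- A positive multiple of the rational combination `∑ i, μ i * D i` is an integral combination
without base points. -/
def Semiample (μ : Fin p → ℚ) : Prop :=
  ∃ k : ℕ, 1 ≤ k ∧ ∃ ν : Fin p → ℤ, (∀ i, (k : ℚ) * μ i = ν i) ∧ BasePointFree N δ ν

/-- All the rational combinations near `A` are semiample on `X`: this holds if the combination `A` is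
ample. -/
def IsAmple (A : Fin p → ℚ) : Prop :=
  ∃ ε : ℚ, 0 < ε ∧ ∀ μ : Fin p → ℚ, (∀ i, |μ i - A i| ≤ ε) → Semiample N δ μ

/-- The divisor with the coefficients `γ P` at the prime divisors `P` over `X` is the semiample part
of the rational combination `μ`: its multiples have the same sections as the multiples of `μ`, and
some multiple has no base points (for every `P` it has a section whose order at `P` is the minimal
one). -/
def IsSemiamplePart (μ : Fin p → ℚ) (γ : Place ℂ K → ℚ) : Prop :=
  (∀ (m : ℕ) (ν : Fin p → ℤ), (∀ i, (m : ℚ) * μ i = ν i) → ∀ f : K,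
    (IsSection N δ ν f ↔ ∀ P : Place ℂ K, Divisorial N P → f = 0 ∨ - (m * γ P) ≤ P.ord f)) ∧
  ∃ m : ℕ, 1 ≤ m ∧ ∃ ν : Fin p → ℤ, (∀ i, (m : ℚ) * μ i = ν i) ∧
    ∀ P : Place ℂ K, Divisorial N P → ∃ f : K, f ≠ 0 ∧ IsSection N δ ν f ∧
      (P.ord f : ℚ) ≤ - (m * γ P)

/-- The ratios of the sections of the multiples of the rational combination `μ` contain `N`
algebraically independent functions (`N = dim X`): the image of `X` by a multiple of `μ` has the
dimension of `X`. -/
def Big (μ : Fin p → ℚ) : Prop :=
  ∃ y : Fin N → K, AlgebraicIndependent ℂ y ∧ ∀ i, ∃ (m : ℕ) (ν : Fin p → ℤ), 1 ≤ m ∧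
    (∀ i', (m : ℚ) * μ i' = ν i') ∧
      ∃ f g : K, g ≠ 0 ∧ IsSection N δ ν f ∧ IsSection N δ ν g ∧ y i = f / g

variable (κ lam : Fin p → ℚ)

/-- The rational combination `lam + t κ`. -/
def combination (t : ℚ) : Fin p → ℚ := fun i => lam i + t * κ i

/-- `α P` and `k P` are the coefficients, at the prime divisors `P` over `X`, of the pullbacks from a
model `X'` of an ample divisor `A'` with the combination `lam` and of the divisor `K'` with the
combination `κ`: for all small rational `t ≥ 0`, the divisor `A' + t K'` on `X'` is the semiample part
of the combination `lam + t κ`. -/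
def IsModel (α k : Place ℂ K → ℚ) : Prop :=
  ∃ ε : ℚ, 0 < ε ∧ ∀ t : ℚ, 0 ≤ t → t ≤ ε →
    IsSemiamplePart N δ (combination κ lam t) fun P => α P + t * k P

/-- A sequence of `L` steps of the minimal model program for the divisor with the combination `κ`,
with scaling of the divisor with the combination `lam`: the models `X j` have the coefficients
`αs j P` and `ks j P` of the images of the two divisors. -/
structure IsProgram (α k : Place ℂ K → ℚ) (L : ℕ) (τ : ℕ → ℚ) (αs ks : ℕ → Place ℂ K → ℚ) :
    Prop where
  /-- the program starts at the model with the coefficients `α` and `k` -/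
  start : τ 0 = 0 ∧ ∀ P : Place ℂ K, Divisorial N P → αs 0 P = α P ∧ ks 0 P = k P
  /-- the times of the steps -/
  mono : ∀ j < L, τ j < τ (j + 1)
  /-- `A j + t K j` is semiample on `X j` and has the sections of `lam + t κ` for
  `τ j ≤ t ≤ τ (j + 1)` -/
  semiample : ∀ j < L, ∀ t : ℚ, τ j ≤ t → t ≤ τ (j + 1) →
    IsSemiamplePart N δ (combination κ lam t) fun P => αs j P + t * ks j P
  /-- the coefficients of the pullbacks of `K j` do not increase in a step, and some coefficient
  becomes smaller: no discrepancy decreases, and some discrepancy becomes larger -/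
  neg : ∀ j < L, (∀ P : Place ℂ K, Divisorial N P → ks (j + 1) P ≤ ks j P) ∧
    ∃ P : Place ℂ K, Divisorial N P ∧ ks (j + 1) P < ks j P

/-- The model with the coefficients `α'` and `k'`, which is reached at the time `s`, is a good minimal
model: `A' + t K'` is semiample and has the sections of `lam + t κ` for all `t ≥ s`, and `K'` is
semiample and has the sections of `κ`. -/
def IsMinimalModel (s : ℚ) (α' k' : Place ℂ K → ℚ) : Prop :=
  (∀ t : ℚ, s ≤ t → IsSemiamplePart N δ (combination κ lam t) fun P => α' P + t * k' P) ∧
    IsSemiamplePart N δ κ k'

/-- The model with the coefficients `α'` and `k'`, which is reached at the time `s`, has the structure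
of a Mori fibre space: for some `T > s`, `A' + t K'` is semiample and has the sections of `lam + t κ`
for `s ≤ t ≤ T`, no multiple of `lam + t κ` has a nonzero section if `t > T`, and the sections of the
multiples of `lam + T κ` map to a variety of smaller dimension (over which `A' + T K'` is trivial and
`- K'` is ample). -/
def IsMoriFibreSpace (s : ℚ) (α' k' : Place ℂ K → ℚ) : Prop :=
  ∃ T : ℚ, s < T ∧
    (∀ t : ℚ, s ≤ t → t ≤ T →
      IsSemiamplePart N δ (combination κ lam t) fun P => α' P + t * k' P) ∧
    (∀ t : ℚ, T < t → ∀ (m : ℕ) (ν : Fin p → ℤ), 1 ≤ m →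
      (∀ i, (m : ℚ) * combination κ lam t i = ν i) → ∀ f : K, IsSection N δ ν f → f = 0) ∧
    ¬ Big N δ (combination κ lam T)

end divisors

/-- **The minimal model program with scaling.** Let `K` be the function field of an abelian
cover `Y` of the product of the projective `n i`-spaces which is branched along smooth hypersurfaces
`F i = 0` of the factors, `X` the projective toroidal modification of `Y` which is given by `fan`, and
`D i`, `i < p`, toroidal `ℚ`-Cartier divisors on `X` with the degrees `β i t` and the coefficients
`c i`; the rational combination `A` of them is ample. There is a number `B` such that for all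
rational combinations `κ` (the class of `K_X + Δ`) and `lam` and every model with the coefficients
`α`, `k` of them, the minimal model program for `κ` with scaling of `lam` which starts at this model
exists and ends, after less than `B` steps, with a good minimal model or a Mori fibre space. -/
theorem result (r N R p : ℕ) (n d : Fin r → ℕ) (hr : 1 ≤ r) (hn : ∀ i, 1 ≤ n i)
    (hd : ∀ i, 1 ≤ d i) (hN : N = ∑ i, n i)
    (F : ∀ i, MvPolynomial (Fin (n i + 1)) ℂ) (hF : ∀ i, (F i).IsHomogeneous (d i))
    (hs : ∀ i, Smooth (F i)) (m : Fin R → ℕ) (hm : ∀ j, 1 ≤ m j) (a : Fin R → Fin r → ℕ)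
    (hdiv : ∀ j i, m j ∣ a j i * d i)
    (K : Type) [Field K] [Algebra ℂ K] (x : ∀ i, Fin (n i + 1) → K) (hx0 : ∀ i, x i 0 ≠ 0)
    (hbas : IsTranscendenceBasis ℂ (affine x)) (z : Fin R → K)
    (hz : ∀ j, z j ^ m j = ∏ i, (aeval (x i) (F i) / x i 0 ^ d i) ^ a j i)
    (hgen : IntermediateField.adjoin ℂ (Set.range (affine x) ∪ Set.range z) = ⊤)
    (fan : Finset (Finset (Fin r → ℕ))) (hfan : IsFan m a fan)
    (c : Fin p → (Fin r → ℕ) → ℚ) (hc0 : ∀ i, c i 0 = 0) (β : Fin p → Fin r → ℤ)
    (u : Finset (Fin r → ℕ) → Fin p → Fin r → ℚ)
    (hlin : ∀ σ ∈ fan, ∀ i v, Admissible m a v → InCone σ v → - c i v = ∑ k, u σ i k * v k)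
    (δ : Fin p → Place ℂ K → ℚ) (hδ : ∀ i P, δ i P = coefficient F d x (c i) (β i) P)
    (A : Fin p → ℚ) (hA : IsAmple N δ A) :
    ∃ B : ℕ, ∀ (κ lam : Fin p → ℚ) (α k : Place ℂ K → ℚ), IsModel N δ κ lam α k →
      ∃ (L : ℕ) (τ : ℕ → ℚ) (αs ks : ℕ → Place ℂ K → ℚ), L < B ∧
        IsProgram N δ κ lam α k L τ αs ks ∧
        (IsMinimalModel N δ κ lam (τ L) (αs L) (ks L) ∨
          IsMoriFibreSpace N δ κ lam (τ L) (αs L) (ks L)) := by
  have hN1 : 1 ≤ N := by
    have h1 : n ⟨0, hr⟩ ≤ ∑ i, n i :=
      Finset.single_le_sum (f := n) (fun _ _ => Nat.zero_le _) (Finset.mem_univ _)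
    have h2 := hn ⟨0, hr⟩
    omega
  obtain ⟨B, hB⟩ := Pool.Agent.Helper15K1.MM.main_prog (δ := δ)
    (Pool.Agent.Q57.CX.main_cox (N := N) hr hn hN hd hF hs hx0 hbas hm hdiv
      hz hgen (S := fan) ⟨hfan.adm, hfan.full, hfan.cover⟩ hc0 (u := u) hlin (β := β) hδ) hN1
    (Pool.Agent.Helper15K1.MM.trdeg_of_basis hN hbas)
    (Pool.Agent.Helper15K1.MM.exists_div hr hn hN hd hF hs hx0 hbas hm hdiv hz hgen) hA
  refine ⟨B, fun κ lam α k hmod => ?_⟩
  obtain ⟨L, τ, αs, ks, h1, h2, h3, h4, h5⟩ := hB κ lam α k hmod
  exact ⟨L, τ, αs, ks, h1, ⟨⟨h2, h3⟩, fun j hj => (h4 j hj).1, fun j hj => (h4 j hj).2.1,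
    fun j hj => (h4 j hj).2.2⟩, h5⟩

end Pool.Agent.Results.MP_c1e25c_ag.ProgramWithScaling
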